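import Pool.Agent.Helper227.Sacks

set_option autoImplicit false

namespace Pool.Agent.Results.MP_7624cc_lc.VanLambalgenPairs

open Pool.Agent.Helper227
open MeasureTheory
open scoped ENNReal

/-- `X` and `B` form a minimal pair in the Turing degrees: every set Turing reducible to both is
computable. -/
def MinPair (X B : ℕ → Bool) : Prop := ∀ C : ℕ → Bool, TLe C X → TLe C B → Computable C

/-- The class `Rand^A_B`: the sets that are Martin-Löf random relative to `A` and form a minimal
pair with `B`. -/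
def RandMP (A B X : ℕ → Bool) : Prop := MLR A X ∧ MinPair X B

/-- The pair `(A, B)` has the van Lambalgen property: for all `X`, `Y` the conditions
(i) `X ⊕ Y ∈ Rand^A_B`, (ii) `X ∈ Rand^A_B` and `Y ∈ Rand^{A ⊕ X}_B`,
(iii) `Y ∈ Rand^A_B` and `X ∈ Rand^{A ⊕ Y}_B` are equivalent. -/
def VLProperty (A B : ℕ → Bool) : Prop := ∀ X Y : ℕ → Bool,
  (RandMP A B (join X Y) ↔ (RandMP A B X ∧ RandMP (join A X) B Y)) ∧
  (RandMP A B (join X Y) ↔ (RandMP A B Y ∧ RandMP (join A Y) B X))

theorem ae_mlr (D : ℕ → Bool) : ∀ᵐ X ∂lam, MLR D X := by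
  obtain ⟨E, hE, mE, hEm, hEU⟩ := exists_universal
  rw [ae_iff]
  have h : {X | ¬ MLR D X} = ⋂ n, UE E D n := by
    ext X
    simp only [Set.mem_ofPred_eq, hEU, Set.mem_iInter]
    push Not
    rfl
  rw [h]
  by_contra hpos
  have h1 : ∀ n, lam (⋂ n, UE E D n) ≤ (1 / 2) ^ n := fun n =>
    le_trans (measure_mono (Set.iInter_subset _ n)) (hEm D n)
  obtain ⟨n, hn⟩ := ENNReal.exists_inv_two_pow_lt (show lam (⋂ n, UE E D n) ≠ 0 from hpos)
  rw [← one_div] at hn
  exact absurd (lt_of_lt_of_le hn (h1 n)) (lt_irrefl _)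

theorem countable_below (B : ℕ → Bool) : {D : ℕ → Bool | TLe D B}.Countable := by
  have hinj : ∀ D ∈ {D : ℕ → Bool | TLe D B}, ∃ c, cpt c D B := fun D hD => exists_cpt hD
  choose! f hf using hinj
  refine Set.MapsTo.countable_of_injOn (f := f) (t := Set.univ) (fun _ _ => Set.mem_univ _) ?_
    Set.countable_univ
  intro D hD D' hD' h
  funext n
  have h1 := hf D hD n (D n)
  have h2 := hf D' hD' n (D n)
  rw [← h] at h2
  exact (h2.2 (h1.1 rfl)).symm

theorem ae_minPair (B : ℕ → Bool) : ∀ᵐ X ∂lam, MinPair X B := by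
  have h : ∀ᵐ X ∂lam, ∀ C ∈ {D : ℕ → Bool | TLe D B}, (Computable C ∨ ¬ TLe C X) := by
    rw [ae_ball_iff (countable_below B)]
    intro C _
    by_cases hC : Computable C
    · exact Filter.Eventually.of_forall fun _ => Or.inl hC
    · filter_upwards [ae_not_tLe hC] with X hX
      exact Or.inr hX
  filter_upwards [h] with X hX C hCX hCB
  rcases hX C hCB with h | h
  · exact h
  · exact absurd hCX h

theorem ae_minPair_xor (B Z : ℕ → Bool) :
    ∀ᵐ X ∂lam, MinPair (fun n => xor (X n) (Z n)) B := by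
  have hm : Measurable (fun (X : ℕ → Bool) n => xor (X n) (Z n)) := by
    refine measurable_pi_iff.2 fun n => ?_
    exact (measurable_of_finite (fun b : Bool => xor b (Z n))).comp (measurable_pi_apply n)
  have h := ae_minPair B
  rw [← lam_xor Z] at h
  exact ae_of_ae_map hm.aemeasurable h

/-- The pair `(A, B)` has the van Lambalgen property if and only if no set that is Martin-Löf
random relative to `A` computes a noncomputable set `C ≤_T B`. -/
theorem result (A B : ℕ → Bool) :
    VLProperty A B ↔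
      ∀ C : ℕ → Bool, TLe C B → ¬ Computable C → ∀ Z : ℕ → Bool, MLR A Z → ¬ TLe C Z := by
  constructor
  · intro hVL C hCB hC Z hZ hCZ
    obtain ⟨X, hX1, hX2, hX3⟩ :=
      ((ae_mlr (join A Z)).and ((ae_minPair B).and (ae_minPair_xor B Z))).exists
    have hXZ : MLR A (join X Z) := (MLR.join_of hZ hX1).symm
    have hZ' : MLR (join A X) Z := hXZ.right_rel
    have hXA : MLR A X := hXZ.left
    have hY : MLR (join A X) (fun n => xor (Z n) (X n)) := hZ'.xor_of (tLe_join_right A X)
    have hcomm : (fun n => xor (X n) (Z n)) = (fun n => xor (Z n) (X n)) := by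
      funext n; exact Bool.xor_comm _ _
    rw [hcomm] at hX3
    have hii : RandMP A B X ∧ RandMP (join A X) B (fun n => xor (Z n) (X n)) :=
      ⟨⟨hXA, hX2⟩, ⟨hY, hX3⟩⟩
    have hi := ((hVL X (fun n => xor (Z n) (X n))).1).2 hii
    have hZle : TLe Z (join X (fun n => xor (Z n) (X n))) := by
      have h1 := xor_tLe (tLe_join_left X (fun n => xor (Z n) (X n)))
        (tLe_join_right X (fun n => xor (Z n) (X n)))
      have h2 : (fun n => xor (X n) (xor (Z n) (X n))) = Z := by
        funext n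
        cases X n <;> cases Z n <;> rfl
      rwa [h2] at h1
    exact hC (hi.2 C (hCZ.trans hZle) hCB)
  · intro h
    have hmp : ∀ Z, MLR A Z → MinPair Z B := by
      intro Z hZ C h1 h2
      by_contra hC
      exact h C h2 hC Z hZ h1
    have key : ∀ X Y, RandMP A B (join X Y) ↔ (RandMP A B X ∧ RandMP (join A X) B Y) := by
      intro X Y
      constructor
      · rintro ⟨h1, _⟩
        exact ⟨⟨h1.left, hmp _ h1.left⟩, ⟨h1.right_rel, hmp _ h1.right⟩⟩
      · rintro ⟨⟨h1, _⟩, ⟨h2, _⟩⟩
        have h3 := MLR.join_of h1 h2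
        exact ⟨h3, hmp _ h3⟩
    have hsym : ∀ X Y, RandMP A B (join X Y) ↔ RandMP A B (join Y X) := by
      intro X Y
      exact ⟨fun h => ⟨h.1.symm, hmp _ h.1.symm⟩, fun h => ⟨h.1.symm, hmp _ h.1.symm⟩⟩
    intro X Y
    exact ⟨key X Y, (hsym X Y).trans (key Y X)⟩

end Pool.Agent.Results.MP_7624cc_lc.VanLambalgenPairs
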